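import Pool.Agent.J4H30.AW.Pos

set_option autoImplicit false

/-!
# Gaps longer than `C log N` in almost all windows of polylogarithmic length, with positive proportion

For all `C`, `A`, `θ > 0` and `ε > 0` there are `c > 0` and `K` such that for all large `N`, all intervals
`(M, M + N]` with `M ≤ N ^ A`, all window lengths `H` with `(log N) ^ K ≤ H ≤ N` and ANY set `S ⊆ [0, H / 2]` of
at most `C log N` shifts: all but at most `N / H ^ (1 - ε)` of the integers `n ∈ (M, M + N]` have at least `c H`
integers `m ∈ (n, n + H / 2]` for which every `m + s`, `s ∈ S`, has a prime factor `≤ N ^ θ`.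

Let `S = {1, …, ⌊C log N⌋}` and, for instance, `M = N`, `θ < 1`. Then the numbers `m + 1, …, m + ⌊C log N⌋` are
composite: in all but at most `N / H ^ (1 - ε)` of the windows `(n, n + H]` a positive proportion of the
integers `m` begin a prime-free interval of length `C log N`. It was known (starting files) that this holds
for a positive proportion of the `m ≤ N`, and that every window of length `N ^ ε` contains long gaps; here the
windows have length a power of `log N`, and the shifts are arbitrary.

Method: the large sieve shows that more than `N / H ^ (1 - ε)` windows are, together, well distributed in the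
residue classes, on average over the moduli and with a logarithmic saving. The square weights of the starting
files (second and fourth moments) are applied to the measure given by these windows, in a positive proportion
of the residue classes modulo the product of the primes up to a small multiple of `log H`.
-/

open Finset

namespace Pool.Agent.Results.MP_3bc45c_nt.AlmostAllWindows

/-- For all real `C`, `θ > 0`, `ε > 0` and all `A` there are `c > 0`, `K`, `N₀` such that for all `N ≥ N₀`, all
`M ≤ N ^ A`, all `H` with `(log N) ^ K ≤ H ≤ N` and all sets `S` of at most `C log N` natural numbers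
`s ≤ H / 2`: the number of the `n ∈ (M, M + N]` for which fewer than `c H` of the `m ∈ (n, n + H / 2]` are such
that for every `s ∈ S` the number `m + s` has a prime factor `p ≤ N ^ θ`, is at most `N * H ^ ε / H`. -/
theorem result (C θ ε : ℝ) (A : ℕ) (hθ : 0 < θ) (hε : 0 < ε) :
    ∃ c : ℝ, 0 < c ∧ ∃ K N₀ : ℕ, ∀ N : ℕ, N₀ ≤ N → ∀ M : ℕ, M ≤ N ^ A →
      ∀ H : ℕ, Real.log N ^ K ≤ H → H ≤ N →
      ∀ S : Finset ℕ, (∀ s ∈ S, 2 * s ≤ H) → (S.card : ℝ) ≤ C * Real.log N →
      ({n : ℕ | M < n ∧ n ≤ M + N ∧
        ({m : ℕ | n < m ∧ 2 * m ≤ 2 * n + H ∧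
          ∀ s ∈ S, ∃ p : ℕ, p.Prime ∧ (p : ℝ) ≤ (N : ℝ) ^ θ ∧ p ∣ m + s}.ncard : ℝ) < c * H}.ncard : ℝ) ≤
        N * (H : ℝ) ^ ε / H := by
  classical
  set θ' : ℝ := min θ (1 / 4) with hθ'
  have hθ'0 : 0 < θ' := lt_min hθ (by norm_num)
  set ε' : ℝ := min (min ε 1) (4 * θ') with hε'
  have hε'0 : 0 < ε' := lt_min (lt_min hε (by norm_num)) (by positivity)
  obtain ⟨c, hc, K, N₀, h⟩ := Pool.Agent.J4H30.AW.pos_main (max C 1) θ' ε' A (le_max_right _ _)
    hθ'0 (min_le_right _ _) hε'0 ((min_le_left _ _).trans (min_le_right _ _)) (min_le_right _ _)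
  refine ⟨c, hc, K, N₀ + 3, fun N hN M hM H hH1 hH2 S hS1 hS2 => ?_⟩
  have hN1 : (1 : ℝ) ≤ N := by
    have : 1 ≤ N := by omega
    exact_mod_cast this
  have hlog : 1 ≤ Real.log N := by
    have h3 : (3 : ℝ) ≤ N := by
      have : 3 ≤ N := by omega
      exact_mod_cast this
    rw [Real.le_log_iff_exp_le (by linarith)]
    have := Real.exp_one_lt_d9
    linarith
  have hH1' : (1 : ℝ) ≤ H := (one_le_pow₀ hlog).trans hH1
  have h1 := h N (by omega) M hM H hH1 hH2 S hS1 (hS2.trans
    (mul_le_mul_of_nonneg_right (le_max_left _ _) (by linarith)))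
  have h2 : (N : ℝ) * (H : ℝ) ^ ε' / H ≤ N * (H : ℝ) ^ ε / H := by
    have : (H : ℝ) ^ ε' ≤ (H : ℝ) ^ ε :=
      Real.rpow_le_rpow_of_exponent_le hH1' ((min_le_left _ _).trans (min_le_left _ _))
    gcongr
  refine le_trans ?_ (h1.trans h2)
  rw [Nat.cast_le, ← Set.ncard_coe_finset]
  refine Set.ncard_le_ncard_of_injOn (fun n => n - M) ?_ ?_ (Finset.finite_toSet _)
  · rintro n ⟨g1, g2, g3⟩
    simp only [coe_filter, mem_Ioc, Set.mem_ofPred_eq]
    refine ⟨by omega, lt_of_le_of_lt ?_ g3⟩
    have hMn : M + (n - M) = n := by omega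
    rw [hMn, Nat.cast_le, ← Set.ncard_coe_finset]
    refine Set.ncard_le_ncard ?_ ?_
    · intro m hm
      simp only [coe_filter, mem_Ioc, Set.mem_ofPred_eq] at hm ⊢
      obtain ⟨⟨m1, m2⟩, m3⟩ := hm
      refine ⟨m1, by omega, fun s hs => ?_⟩
      obtain ⟨p, p1, p2, p3⟩ := m3 s hs
      exact ⟨p, p1, p2.trans (Real.rpow_le_rpow_of_exponent_le hN1 (min_le_left _ _)), p3⟩
    · refine (Set.finite_Icc 0 (n + H)).subset ?_
      rintro m ⟨m1, m2, -⟩
      simp only [Set.mem_Icc]
      omega
  · rintro n ⟨g1, -, -⟩ n' ⟨g1', -, -⟩ h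
    simp only at h
    omega

end Pool.Agent.Results.MP_3bc45c_nt.AlmostAllWindows
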