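import Pool.Agent.J4H30.VW.Blocks

set_option autoImplicit false

/-!
# Gaps exceeding `C log p` in blocks of boundedly many consecutive prime gaps

Let `p_0 = 2 < p_1 = 3 < …` be the primes. For all `C` and all `η > 0` there is `K` such that for all large `N`,
for all but at most `η N` of the indices `n < N`, the following holds for ALL `k ≥ K` at the same time: at least
`k / K` of the `k` consecutive gaps `p_{n+1} - p_n, …, p_{n+k} - p_{n+k-1}` are larger than `C` times the
logarithm of the prime at which they begin.

In particular (`k = K`), apart from a set of indices of upper density at most `η`, one of the `K` gaps following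
`p_n` is larger than `C log p`: the number of steps from a typical prime to the next gap which is more than `C`
times as long as the average is bounded in probability, for every `C`.

It was known that a positive proportion of all gaps exceed `C log p`; this says nothing about how these gaps
are spread. In almost all windows of length `(log N) ^ K` they are found by `AlmostAllWindows` of this folder.
Here the blocks have a bounded number of primes.

Method: for a set `S` of `C log N` shifts, the square weights of the starting files are attached to each member
`m` of a residue class modulo the product of the primes up to a small multiple of `log H`, where the windows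
have length `H = K log N`. Weights of members at a distance more than `C log N` are asymptotically
uncorrelated; together with bounds for the fourth moments this gives a variance estimate, and hence a positive
proportion of covered members in all but a small proportion of the windows (`pos_V`). The second moment of the
number of primes in short intervals then transfers this to indices of primes, and a discrete maximal
inequality gives all `k ≥ K` at once.
-/

open Finset

namespace Pool.Agent.Results.MP_3bc45c_nt.BlocksOfConsecutiveGaps

/-- For all real `C` and `η > 0` there are `K > 0` and `N₀` such that for all `N ≥ N₀` at most `η N` of the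
`n < N` have some `k ≥ K` such that fewer than `k / K` of the `i < k` satisfy
`p_{n+i+1} - p_{n+i} > C log p_{n+i}`. Here `p_j = Nat.nth Nat.Prime j` is the `j`-th prime, `p_0 = 2`. -/
theorem result (C η : ℝ) (hη : 0 < η) :
    ∃ K N₀ : ℕ, 0 < K ∧ ∀ N : ℕ, N₀ ≤ N →
      ({n : ℕ | n < N ∧ ∃ k : ℕ, K ≤ k ∧
        K * {i : ℕ | i < k ∧ C * Real.log (Nat.nth Nat.Prime (n + i)) <
          (Nat.nth Nat.Prime (n + i + 1) : ℝ) - Nat.nth Nat.Prime (n + i)}.ncard < k}.ncard : ℝ) ≤
        η * N := by
  classical
  obtain ⟨K, N₀, hK, h⟩ := Pool.Agent.J4H30.VW.blocks C η hη
  refine ⟨K, N₀, hK, fun N hN => ?_⟩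
  refine le_trans (le_of_eq ?_) (h N hN)
  have h1 : ∀ n k : ℕ, {i : ℕ | i < k ∧ C * Real.log (Nat.nth Nat.Prime (n + i)) <
      (Nat.nth Nat.Prime (n + i + 1) : ℝ) - Nat.nth Nat.Prime (n + i)}.ncard =
      ((range k).filter (fun i => C * Real.log (Pool.Agent.J4H30.VW.Pn (n + i)) <
        (Pool.Agent.J4H30.VW.Pn (n + i + 1) : ℝ) - Pool.Agent.J4H30.VW.Pn (n + i))).card := by
    intro n k
    rw [← Set.ncard_coe_finset]
    congr 1
    ext i
    rw [Finset.mem_coe, Finset.mem_filter, Finset.mem_range]
    rfl
  simp_rw [h1]
  rw [← Set.ncard_coe_finset]
  congr 2
  ext n
  rw [Finset.mem_coe, Finset.mem_filter, Finset.mem_range]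
  rfl

end Pool.Agent.Results.MP_3bc45c_nt.BlocksOfConsecutiveGaps
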