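import Pool.Agent.J4H30.SW.T2

set_option autoImplicit false

/-!
# Record gaps in almost all windows of length `N ^ o(1)`

Write `log₂ N = log log N` and so on. For all `δ > 0`, `θ > 0` and `ε > 0` there is `c > 0` such that for all
large `N`, ALL `M` and all window lengths `H` with `exp ((log N) ^ δ) ≤ H ≤ N`: all but at most
`N / H ^ (1 - ε)` of the windows `(n, n + H]`, `n ∈ (M, M + N]`, contain an interval of length

  `c * log N * (log₂ N) ^ 2 * log₄ N / (log₃ N * (log₃ N + log (log N / log H)))`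

all of whose members have a prime factor `≤ N ^ θ`.

If `H ≥ exp (log N / (log log N) ^ B)` with `B` fixed, then this length is at least
`c' * log N * (log₂ N) ^ 2 * log₄ N / (log₃ N) ^ 2`, the record of the starting files for the gaps up to `N`
(and for the gaps in every window of length `N ^ ε`). So the record gaps occur in almost all windows of length
`exp (log N / (log log N) ^ B) = N ^ o(1)`; the exceptional set has size `N / H ^ (1 - ε)`. For `log H` between
`(log N) ^ δ` and `log N` the formula interpolates.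

Method: Rankin's choice of the residue classes modulo the primes up to a small multiple of `log H` (the
starting files, extended to intervals longer than `y (log y) ^ 2`), and the covering theorem for almost all
windows (`Pool.Agent.J4H30.SW.win_main`) for the `c log N` integers which are left.
-/

open Finset Filter

namespace Pool.Agent.Results.MP_3bc45c_nt.RecordGapsInAlmostAllWindows

/-- the length of the gaps:
`F N H = log N * (log₂ N) ^ 2 * log₄ N / (log₃ N * (log₃ N + log (log N / log H)))` -/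
noncomputable def F (N H : ℝ) : ℝ :=
  Real.log N * Real.log (Real.log N) ^ 2 * Real.log (Real.log (Real.log (Real.log N))) /
    (Real.log (Real.log (Real.log N)) *
      (Real.log (Real.log (Real.log N)) + Real.log (Real.log N / Real.log H)))

/-- For all real `δ > 0`, `θ > 0` and `ε > 0` there are `c > 0` and `N₀` such that for all `N ≥ N₀`, all `M` and
all `H` with `exp ((log N) ^ δ) ≤ H ≤ N`: the number of the `n ∈ (M, M + N]` for which there is no `m` with
`n < m`, `m + c F(N, H) ≤ n + H`, such that every integer in `(m, m + c F(N, H)]` has a prime factor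
`p ≤ N ^ θ`, is at most `N * H ^ ε / H`. -/
theorem result (δ θ ε : ℝ) (hδ : 0 < δ) (hθ : 0 < θ) (hε : 0 < ε) :
    ∃ c : ℝ, 0 < c ∧ ∃ N₀ : ℕ, ∀ N : ℕ, N₀ ≤ N → ∀ M H : ℕ,
      Real.exp (Real.log N ^ δ) ≤ H → H ≤ N →
      ({n : ℕ | M < n ∧ n ≤ M + N ∧ ¬ ∃ m : ℕ, n < m ∧ (m : ℝ) + c * F N H ≤ n + H ∧
        ∀ k : ℕ, m < k → (k : ℝ) ≤ m + c * F N H →
          ∃ p : ℕ, p.Prime ∧ (p : ℝ) ≤ (N : ℝ) ^ θ ∧ p ∣ k}.ncard : ℝ) ≤
        N * (H : ℝ) ^ ε / H := by
  classical
  obtain ⟨c, hc, N₀, h⟩ := Pool.Agent.J4H30.SW.t2 δ (min ε 1) (min θ 1) hδ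
    (lt_min hε one_pos) (min_le_right _ _) (lt_min hθ one_pos) (min_le_right _ _)
  refine ⟨c, hc, max N₀ 1, fun N hN M H hH1 hH2 => ?_⟩
  have hN1 : (1 : ℝ) ≤ N := by
    have : 1 ≤ N := (le_max_right _ _).trans hN
    exact_mod_cast this
  have hH0 : (0 : ℝ) < H := lt_of_lt_of_le (Real.exp_pos _) hH1
  have hH1' : (1 : ℝ) ≤ H := by
    have : 0 < H := by exact_mod_cast hH0
    exact_mod_cast this
  have h1 := h N ((le_max_left _ _).trans hN) H hH1 hH2 M
  have h2 : (N : ℝ) * (H : ℝ) ^ (min ε 1) / H ≤ N * (H : ℝ) ^ ε / H := by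
    have : (H : ℝ) ^ (min ε 1) ≤ (H : ℝ) ^ ε :=
      Real.rpow_le_rpow_of_exponent_le hH1' (min_le_left _ _)
    gcongr
  refine le_trans ?_ (h1.trans h2)
  rw [Nat.cast_le, ← Set.ncard_coe_finset]
  refine Set.ncard_le_ncard ?_ (Finset.finite_toSet _)
  rintro n ⟨g1, g2, g3⟩
  simp only [coe_filter, mem_Ioc, Set.mem_ofPred_eq]
  refine ⟨⟨g1, g2⟩, ?_⟩
  rintro ⟨m, m1, m2, m3⟩
  apply g3
  refine ⟨m, m1, m2, fun k hk1 hk2 => ?_⟩
  obtain ⟨p, p1, p2, p3⟩ := m3 k hk1 hk2
  exact ⟨p, p1, p2.trans (Real.rpow_le_rpow_of_exponent_le hN1 (min_le_left _ _)), p3⟩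

end Pool.Agent.Results.MP_3bc45c_nt.RecordGapsInAlmostAllWindows
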