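import Pool.Agent.J4H30.SW.T1

set_option autoImplicit false

/-!
# `c log N log log N` arbitrary shifts in almost all windows of length `exp ((log N) ^ δ)`

For all `δ > 0`, `A`, `θ > 0` and `ε > 0` there is `c > 0` such that for all large `N`, ALL `M`, all window
lengths `H` with `exp ((log N) ^ δ) ≤ H ≤ N` and ANY set `S` of at most `c log N log log N` natural numbers
`s ≤ (log N) ^ A`: all but at most `N / H ^ (1 - ε)` of the windows `(n, n + H]`, `n ∈ (M, M + N]`, contain a
translate `m + S` all of whose elements have a prime factor `≤ N ^ θ`.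

With `S = {1, …, ⌊c log N log log N⌋}` and `θ < 1`: almost all windows of length `exp ((log N) ^ δ)` contain
gaps between primes of length `c log N log log N`, for every `δ > 0`. The starting files have longer gaps in
every window of length `N ^ ε`; for windows of length `N ^ o(1)` I know of no earlier result beyond gaps of
length `C log N` (`AlmostAllWindows` in this folder). The shifts are arbitrary, and `M` is arbitrary.

Method: the covering sieve of the starting files is transferred to the measure given by the exceptional windows.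
The number of primes used by its weights has to be kept below `log H / (log log N) ^ 3`, because the large
sieve gives only a saving of a power of `H` on average over the moduli; therefore the profile of the
weights starts at primes of size about `exp (log N / log H)`, and a new norm for the coefficients in the
elementary events is used.
-/

open Finset Filter

namespace Pool.Agent.Results.MP_3bc45c_nt.ShiftsInAlmostAllWindows

/-- For all real `δ > 0`, `θ > 0`, `ε > 0` and all `A` there are `c > 0` and `N₀` such that for all `N ≥ N₀`,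
all `M`, all `H` with `exp ((log N) ^ δ) ≤ H ≤ N` and all sets `S` of at most `c log N log log N` natural
numbers `s ≤ (log N) ^ A`: the number of the `n ∈ (M, M + N]` for which there is no `m` with `n < m`,
`m + s ≤ n + H` for all `s ∈ S`, such that every `m + s`, `s ∈ S`, has a prime factor `p ≤ N ^ θ`, is at most
`N * H ^ ε / H`. -/
theorem result (δ θ ε : ℝ) (A : ℕ) (hδ : 0 < δ) (hθ : 0 < θ) (hε : 0 < ε) :
    ∃ c : ℝ, 0 < c ∧ ∃ N₀ : ℕ, ∀ N : ℕ, N₀ ≤ N → ∀ M H : ℕ,
      Real.exp (Real.log N ^ δ) ≤ H → H ≤ N →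
      ∀ S : Finset ℕ, (∀ s ∈ S, (s : ℝ) ≤ Real.log N ^ A) →
        (S.card : ℝ) ≤ c * Real.log N * Real.log (Real.log N) →
      ({n : ℕ | M < n ∧ n ≤ M + N ∧ ¬ ∃ m : ℕ, n < m ∧ m ≤ n + H ∧ (∀ s ∈ S, m + s ≤ n + H) ∧
        ∀ s ∈ S, ∃ p : ℕ, p.Prime ∧ (p : ℝ) ≤ (N : ℝ) ^ θ ∧ p ∣ m + s}.ncard : ℝ) ≤
        N * (H : ℝ) ^ ε / H := by
  classical
  obtain ⟨c, hc, N₀, h⟩ := Pool.Agent.J4H30.SW.t1 δ (min ε 1) (min θ 1) A hδ
    (lt_min hε one_pos) (min_le_right _ _) (lt_min hθ one_pos) (min_le_right _ _)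
  obtain ⟨x₀, hx₀⟩ := Filter.eventually_atTop.mp
    (Pool.Agent.J4H30.SW.ev_x δ 0 1 0 0 A hδ one_pos)
  obtain ⟨N₁, hN₁⟩ := Filter.eventually_atTop.mp
    (Pool.Agent.J4H30.SW.tendsto_logN.eventually_ge_atTop x₀)
  refine ⟨c, hc, max N₀ (max N₁ 1), fun N hN M H hH1 hH2 S hS1 hS2 => ?_⟩
  have hN1 : (1 : ℝ) ≤ N := by
    have : 1 ≤ N := (le_max_right _ _).trans ((le_max_right _ _).trans hN)
    exact_mod_cast this
  have hlog := (hx₀ (Real.log N) (hN₁ N ((le_max_left _ _).trans
    ((le_max_right _ _).trans hN)))).2.2.2.2.2.2.1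
  have hH0 : (0 : ℝ) < H := lt_of_lt_of_le (Real.exp_pos _) hH1
  have hH1' : (1 : ℝ) ≤ H := by
    have : 0 < H := by exact_mod_cast hH0
    exact_mod_cast this
  have h1 := h N ((le_max_left _ _).trans hN) H hH1 hH2 M S hS1 hS2
  have h2 : (N : ℝ) * (H : ℝ) ^ (min ε 1) / H ≤ N * (H : ℝ) ^ ε / H := by
    have : (H : ℝ) ^ (min ε 1) ≤ (H : ℝ) ^ ε :=
      Real.rpow_le_rpow_of_exponent_le hH1' (min_le_left _ _)
    gcongr
  refine le_trans ?_ (h1.trans h2)
  rw [Nat.cast_le, ← Set.ncard_coe_finset]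
  refine Set.ncard_le_ncard ?_ (Finset.finite_toSet _)
  rintro n ⟨g1, g2, g3⟩
  simp only [coe_filter, mem_Ioc, Set.mem_ofPred_eq]
  refine ⟨⟨g1, g2⟩, ?_⟩
  rintro ⟨m, m1, m2, m3⟩
  apply g3
  refine ⟨m, m1, by omega, fun s hs => ?_, fun s hs => ?_⟩
  · have e1 : (2 : ℝ) * s ≤ H := by
      have := hS1 s hs
      linarith
    have e2 : 2 * s ≤ H := by exact_mod_cast e1
    omega
  · obtain ⟨p, p1, p2, p3⟩ := m3 s hs
    exact ⟨p, p1, p2.trans (Real.rpow_le_rpow_of_exponent_le hN1 (min_le_left _ _)), p3⟩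

end Pool.Agent.Results.MP_3bc45c_nt.ShiftsInAlmostAllWindows
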